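import Mathlib

namespace Pool.Agent.H.MP_fd6c89_co

open Finset Pointwise

lemma sidon (A : Finset ℕ) (n u : ℕ) (hn : ∀ a ∈ A, a < n)
    (hS : ∀ a ∈ A, ∀ b ∈ A, ∀ c ∈ A, ∀ d ∈ A, a ≠ b → c ≠ d → a + b = c + d → a = c ∨ a = d) :
    #A ^ 2 * u ^ 2 ≤ (n + u) * (#A * u + u * u + #A * 2 * u) := by
  classical
  have h1 := le_card_add_mul_addEnergy A (range u)
  rw [card_range] at h1
  refine h1.trans (Nat.mul_le_mul ?_ ?_)
  · rw [← card_range (n + u)]
    refine card_le_card fun x hx => ?_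
    obtain ⟨a, ha, i, hi, rfl⟩ := mem_add.1 hx
    have := hn a ha
    rw [mem_range] at hi ⊢
    omega
  · rw [addEnergy]
    refine (card_le_card_of_injOn (t := (A ×ˢ range u).disjSum ((range u ×ˢ range u).disjSum
      ((A ×ˢ (univ : Finset Bool)) ×ˢ range u)))
      (fun x => if x.1.1 = x.1.2 then .inl (x.1.1, x.2.1) else
        if ∃ c ∈ A, c + x.1.2 = 2 * x.1.1 then .inr (.inr ((x.1.1, decide (x.1.2 < x.1.1)), x.2.1))
        else .inr (.inl x.2)) ?_ ?_).trans (by simp [add_assoc])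
    · rintro ⟨⟨a, b⟩, i, j⟩ hx
      simp only [coe_filter, mem_product, mem_range, Set.mem_ofPred_eq] at hx
      simp only [mem_coe]
      split_ifs <;> simp [hx, lt_or_ge]
    · rintro ⟨⟨a, b⟩, i, j⟩ hx ⟨⟨c, d⟩, k, l⟩ hy h
      simp only [coe_filter, mem_product, mem_range, Set.mem_ofPred_eq] at hx hy
      obtain ⟨⟨⟨ha, hb⟩, -⟩, e1⟩ := hx
      obtain ⟨⟨⟨hc, hd⟩, -⟩, e2⟩ := hy
      simp only at h
      by_cases h1 : a = b <;> by_cases h2 : ∃ e ∈ A, e + b = 2 * a <;> by_cases h3 : c = d <;>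
        by_cases h4 : ∃ e ∈ A, e + d = 2 * c <;>
        simp only [h1, h2, h3, h4, if_true, if_false, ite_self, Sum.inl.injEq, Sum.inr.injEq,
          Prod.mk.injEq, reduceCtorEq, decide_eq_decide] at h ⊢ <;> try omega
      · obtain ⟨e, he, f1⟩ := h2
        obtain ⟨g, hg, f2⟩ := h4
        have := hS b hb e he d hd g hg (by omega) (by omega) (by omega)
        omega
      · by_cases q1 : a = d
        · exact absurd ⟨c, hc, by omega⟩ h2
        · by_cases q2 : b = c
          · exact absurd ⟨a, ha, by omega⟩ h4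
          · have := hS a ha d hd b hb c hc q1 q2 (by omega)
            omega

abbrev V : Type := Fin 50 ⊕ {s : Finset (Fin 50) // #s = 2}

def G : SimpleGraph V where
  Adj := Sum.elim (fun a => Sum.elim (fun _ => False) fun s => a ∈ s.1)
    (fun s => Sum.elim (fun a => a ∈ s.1) fun _ => False)
  symm := ⟨by rintro (a | a) (b | b) h <;> exact h⟩
  loopless := ⟨by rintro (a | a) h <;> exact h⟩

lemma cardV : Fintype.card V = 1275 := by
  rw [Fintype.card_sum, Fintype.card_finset_len, Fintype.card_fin]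
  decide +kernel

lemma nb (u v : V) (h : u ≠ v) : G.neighborSet u ≠ G.neighborSet v := by
  intro e
  have e' : ∀ w, G.Adj u w ↔ G.Adj v w := fun w => Set.ext_iff.1 e w
  have ex : ∀ s : {s : Finset (Fin 50) // #s = 2}, ∃ a, a ∈ s.1 := fun s =>
    card_pos.1 (by rw [s.2]; norm_num)
  rcases u with a | s <;> rcases v with b | t
  · have hab : a ≠ b := fun hh => h (by rw [hh])
    obtain ⟨c, -, hc⟩ := exists_mem_notMem_of_card_lt_card (s := {a, b}) (t := univ)
      (lt_of_le_of_lt card_le_two (by simp))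
    simp only [mem_insert, mem_singleton, not_or] at hc
    have := (e' (.inr ⟨{a, c}, card_pair (Ne.symm hc.1)⟩)).1 (mem_insert_self _ _)
    have h2 : b ∈ ({a, c} : Finset (Fin 50)) := this
    simp only [mem_insert, mem_singleton] at h2
    rcases h2 with h2 | h2
    · exact hab h2.symm
    · exact hc.2 h2.symm
  · obtain ⟨x, hx⟩ := ex t
    exact (e' (.inl x)).2 hx
  · obtain ⟨x, hx⟩ := ex s
    exact (e' (.inl x)).1 hx
  · exact h (congrArg _ (Subtype.ext (Finset.ext fun x => e' (.inl x))))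

theorem main [DecidableRel G.Adj] (f : V ≃ Fin (Fintype.card V)) :
    ¬ Function.Injective fun v : V => ∑ u ∈ G.neighborFinset v, ((f u : ℕ) + 1) := by
  intro hinj
  obtain ⟨g, hg⟩ : ∃ g : Fin 50 → ℕ, ∀ a, g a = f (.inl a) := ⟨_, fun _ => rfl⟩
  have gi : Function.Injective g := fun a b h => by
    rw [hg, hg] at h
    exact Sum.inl_injective (f.injective (Fin.ext h))
  have hs : ∀ a b (h : a ≠ b), ∑ u ∈ G.neighborFinset (.inr ⟨{a, b}, card_pair h⟩),
      ((f u : ℕ) + 1) = g a + g b + 2 := by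
    intro a b h
    have : G.neighborFinset (.inr ⟨{a, b}, card_pair h⟩) = {.inl a, .inl b} := by
      ext (x | x) <;> simp [G]
    rw [this, sum_pair (by simpa using h), hg, hg]
    ring
  have := sidon (univ.image g) 1275 500 (by
    intro a ha
    obtain ⟨x, -, rfl⟩ := mem_image.1 ha
    rw [hg, ← cardV]; exact (f _).2) (by
    intro a ha b hb c hc d hd h1 h2 h3
    obtain ⟨a, -, rfl⟩ := mem_image.1 ha
    obtain ⟨b, -, rfl⟩ := mem_image.1 hb
    obtain ⟨c, -, rfl⟩ := mem_image.1 hc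
    obtain ⟨d, -, rfl⟩ := mem_image.1 hd
    have hab : a ≠ b := fun h => h1 (by rw [h])
    have hcd : c ≠ d := fun h => h2 (by rw [h])
    have e := @hinj (.inr ⟨{a, b}, card_pair hab⟩) (.inr ⟨{c, d}, card_pair hcd⟩)
      (by simp only [hs a b hab, hs c d hcd, h3])
    have e2 : ({a, b} : Finset (Fin 50)) = {c, d} := congrArg Subtype.val (Sum.inr_injective e)
    have : a ∈ ({c, d} : Finset (Fin 50)) := e2 ▸ mem_insert_self _ _
    simp only [mem_insert, mem_singleton] at this
    rcases this with h | h <;> simp [h])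
  rw [card_image_of_injective _ gi] at this
  simp at this

end Pool.Agent.H.MP_fd6c89_co
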